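import Pool.Agent.H94.LP4.M43
import Pool.Agent.H94.LP4.M44

/-!
# Off the window scale by scale, for any set of points
-/

namespace Pool.Agent.H74.SC

open Finset Pool.Agent.H18.Cub Pool.Agent.H18.Pr Pool.Agent.H18.Fat Pool.Agent.H18.Ub Pool.Agent.H18.Nef Pool.Agent.H74.BP Pool.Agent.H74.CT

theorem max_zero (r d : ℕ) {k : ℕ} (m : Fin k → ℕ) (J : Finset (Fin k))
    (h0 : generalDim r d m = 0)
    (h1 : (generalDim r d fun i => if i ∈ J then m i else 0) ≤
      len r m (univ.filter fun i => i ∉ J)) : BP.Max r d m J := by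
  unfold BP.Max
  refine (generalDim_spec r d m).mono fun p hp => ?_
  rw [hp, h0, max_eq_left (by omega)]
  rfl

/-- The largest point with too many conditions above it: there are no forms. -/
theorem max_of_bad (r : ℕ) (hr : 2 ≤ r) (k d e : ℕ) (m : Fin k → ℕ)
    (J : Finset (Fin k)) (P : Fin k) (hP0 : 1 ≤ m P) (hed : d + m P ≤ e + 1)
    (hS : (generalDim r e fun i => if i ∈ J then m i else 0) ≤
      len r m (univ.filter fun i => i ∉ J))
    (hgood : ∀ i, i ∉ J → m P < m i → ∃ e', e' + m i ≤ e + 1 ∧
      len r m (above m J (m i)) ≤ generalDim r e' fun i => if i ∈ J then m i else 0) :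
    BP.Max r d m J := by
  classical
  obtain ⟨s, rfl⟩ : ∃ s, r = s + 2 := ⟨r - 2, by omega⟩
  set x := m P with hx
  set A := above m J (x + 1) with hA
  set L := J ∪ A with hL
  have hLx : ∀ i, i ∉ L → m i ≤ x := by
    intro i hi
    by_contra hcon
    rw [hL, mem_union, hA, mem_above] at hi
    by_cases hiJ : i ∈ J
    · exact hi (Or.inl hiJ)
    · exact hi (Or.inr ⟨hiJ, by omega⟩)
  have hval : (generalDim (s + 2) e fun i => if i ∈ L then m i else 0) +
      len (s + 2) m A = generalDim (s + 2) e fun i => if i ∈ J then m i else 0 :=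
    elem_level s e (x + 1) m J fun i hi hxi => hgood i hi (by omega)
  have hJL : J ⊆ L := subset_union_left
  have hlenL := len_split (s + 2) m hJL
  have hLJ : L \ J = A := by
    rw [hL, union_sdiff_left]
    exact sdiff_eq_self_of_disjoint (disjoint_above m J _).symm
  rw [hLJ] at hlenL
  have hSL : (generalDim (s + 2) e fun i => if i ∈ L then m i else 0) ≤
      len (s + 2) m (univ.filter fun i => i ∉ L) := by omega
  have hmax := max_elem (s + 2) x hr k d m L hLx (Or.inr ⟨⟨e, hed, hSL⟩, hP0⟩)
  have hle : (generalDim (s + 2) d fun i => if i ∈ L then m i else 0) ≤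
      generalDim (s + 2) e fun i => if i ∈ L then m i else 0 :=
    generalDim_deg (fun i => if i ∈ L then m i else 0) (by omega)
  have hleJ : (generalDim (s + 2) d fun i => if i ∈ J then m i else 0) ≤
      generalDim (s + 2) e fun i => if i ∈ J then m i else 0 :=
    generalDim_deg (fun i => if i ∈ J then m i else 0) (by omega)
  obtain ⟨p, hp1, hp2⟩ := Pool.Agent.H18.Cub.exists_of_general
    (hmax.and (generalDim_spec (s + 2) d m))
  rw [hp2, max_eq_left (by omega)] at hp1
  exact max_zero (s + 2) d m J (by exact_mod_cast hp1) (by omega)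

/-- Any set of points, slow growth or independent conditions; the other points off the window scale
by scale. -/
theorem max_gen (r M : ℕ) (hr : 2 ≤ r) (hM : 1 ≤ M) (k d : ℕ) (m : Fin k → ℕ)
    (J : Finset (Fin k)) (h : ℕ → ℕ)
    (hh : ∀ j, h j = generalDim r j fun i => if i ∈ J then m i else 0)
    (hS : ∀ i, i ∉ J → M < m i →
      (∃ e, e + m i + 300 * r * M ^ (r + 4) ≤ d ∧ len r m (above m J (m i)) ≤ h e) ∨
      (∃ e, d + m i ≤ e + 1 ∧ h e ≤ len r m (univ.filter fun i => i ∉ J)))
    (hyp : 16 * M ^ 2 * (M + r - 1).choose r * ((h d - h (d - 1)) -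
        (h (d - 66 * M ^ 3 * (M + r - 1).choose r) -
          h (d - 66 * M ^ 3 * (M + r - 1).choose r - 1))) ≤ h d - h (d - 1) ∨
      300 * r * M ^ (r + 4) ≤ d ∧ (h (d - 300 * r * M ^ (r + 4)) : ℤ) =
        ((d - 300 * r * M ^ (r + 4) + r).choose r : ℤ) -
          ∑ i ∈ J, ((m i + r - 1).choose r : ℤ)) : BP.Max r d m J := by
  classical
  set F := 300 * r * M ^ (r + 4) with hF
  by_cases hall : ∀ i, i ∉ J → M < m i → ∃ e, e + m i + F ≤ d ∧
      len r m (above m J (m i)) ≤ h e
  · exact max_scale r M hr hM k d m J h hh hall hyp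
  · push Not at hall
    set B := univ.filter (fun i => i ∉ J ∧ M < m i ∧ ¬ ∃ e, e + m i + F ≤ d ∧
      len r m (above m J (m i)) ≤ h e) with hB
    have hBne : B.Nonempty := by
      obtain ⟨i, hi1, hi2, hi3⟩ := hall
      refine ⟨i, mem_filter.2 ⟨mem_univ i, hi1, hi2, fun hcon => ?_⟩⟩
      obtain ⟨e, he1, he2⟩ := hcon
      have := hi3 e he1
      omega
    obtain ⟨P, hP, hPmax⟩ := exists_max_image B m hBne
    rw [hB, mem_filter] at hP
    obtain ⟨-, hPJ, hPM, hPbad⟩ := hP
    obtain ⟨e, he1, he2⟩ := (hS P hPJ hPM).resolve_left hPbad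
    refine max_of_bad r hr k d e m J P (by omega) he1 (by rw [← hh]; exact he2)
      fun i hi hPi => ?_
    have hig : ∃ e, e + m i + F ≤ d ∧ len r m (above m J (m i)) ≤ h e := by
      by_contra hcon
      have h1 : i ∈ B := by
        rw [hB, mem_filter]
        exact ⟨mem_univ i, hi, by omega, hcon⟩
      have := hPmax i h1
      omega
    obtain ⟨e', he3, he4⟩ := hig
    exact ⟨e', by omega, by rw [← hh]; exact he4⟩

/-- The same without a condition on the growth, for all scales. -/
theorem max_all (r : ℕ) (hr : 2 ≤ r) (k d : ℕ) (m : Fin k → ℕ)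
    (J : Finset (Fin k))
    (hS : ∀ i, i ∉ J → 1 ≤ m i →
      (∃ e, e + m i ≤ d + 1 ∧ len r m (above m J (m i)) ≤
        generalDim r e fun i => if i ∈ J then m i else 0) ∨
      (∃ e, d + m i ≤ e + 1 ∧ (generalDim r e fun i => if i ∈ J then m i else 0) ≤
        len r m (univ.filter fun i => i ∉ J))) : BP.Max r d m J := by
  classical
  by_cases hall : ∀ i, i ∉ J → 1 ≤ m i → ∃ e, e + m i ≤ d + 1 ∧ len r m (above m J (m i)) ≤
        generalDim r e fun i => if i ∈ J then m i else 0
  · obtain ⟨s, rfl⟩ : ∃ s, r = s + 2 := ⟨r - 2, by omega⟩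
    have hval := elem_level s d 1 m J fun i hi hxi => hall i hi hxi
    set A := above m J 1 with hA
    set L := J ∪ A with hL
    have hlenA : len (s + 2) m (univ.filter fun i => i ∉ J) = len (s + 2) m A := by
      unfold BP.len
      refine (sum_subset (fun i hi => ?_) fun i hi1 hi2 => ?_).symm
      · rw [hA, mem_above] at hi
        exact mem_filter.2 ⟨mem_univ i, hi.1⟩
      · rw [mem_filter] at hi1
        rw [hA, mem_above] at hi2
        have h0 : m i = 0 := by
          by_contra hcon
          exact hi2 ⟨hi1.2, by omega⟩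
        rw [h0]
        exact Nat.choose_eq_zero_of_lt (by omega)
    have hfun : (fun i => if i ∈ L then m i else 0) = m := by
      funext i
      by_cases hi : i ∈ L
      · rw [if_pos hi]
      · rw [if_neg hi]
        rw [hL, mem_union, hA, mem_above] at hi
        by_contra hcon
        by_cases hiJ : i ∈ J
        · exact hi (Or.inl hiJ)
        · exact hi (Or.inr ⟨hiJ, by omega⟩)
    have hval' : generalDim (s + 2) d m + len (s + 2) m A =
        generalDim (s + 2) d fun i => if i ∈ J then m i else 0 := by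
      have h1 : (generalDim (s + 2) d fun i => if i ∈ L then m i else 0) =
          generalDim (s + 2) d m := by rw [hfun]
      rw [← h1]
      exact hval
    unfold BP.Max
    refine (generalDim_spec (s + 2) d m).mono fun p hp => ?_
    rw [hp, hlenA, ← hval', max_eq_right (by push_cast; omega)]
    push_cast
    ring
  · push Not at hall
    set B := univ.filter (fun i => i ∉ J ∧ 1 ≤ m i ∧ ¬ ∃ e, e + m i ≤ d + 1 ∧
      len r m (above m J (m i)) ≤ generalDim r e fun i => if i ∈ J then m i else 0) with hB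
    have hBne : B.Nonempty := by
      obtain ⟨i, hi1, hi2, hi3⟩ := hall
      refine ⟨i, mem_filter.2 ⟨mem_univ i, hi1, hi2, fun hcon => ?_⟩⟩
      obtain ⟨e, he1, he2⟩ := hcon
      have := hi3 e he1
      omega
    obtain ⟨P, hP, hPmax⟩ := exists_max_image B m hBne
    rw [hB, mem_filter] at hP
    obtain ⟨-, hPJ, hPM, hPbad⟩ := hP
    obtain ⟨e, he1, he2⟩ := (hS P hPJ hPM).resolve_left hPbad
    refine max_of_bad r hr k d e m J P hPM he1 he2 fun i hi hPi => ?_
    have hig : ∃ e, e + m i ≤ d + 1 ∧ len r m (above m J (m i)) ≤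
        generalDim r e fun i => if i ∈ J then m i else 0 := by
      by_contra hcon
      have h1 : i ∈ B := by
        rw [hB, mem_filter]
        exact ⟨mem_univ i, hi, by omega, hcon⟩
      have := hPmax i h1
      omega
    obtain ⟨e', he3, he4⟩ := hig
    exact ⟨e', by omega, he4⟩

end Pool.Agent.H74.SC
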