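import Pool.Agent.H94.LP4.M56

/-!
# Nef classes of large self-intersection
-/

namespace Pool.Agent.H74.SC

open Finset Pool.Agent.H18.Cub Pool.Agent.H18.Pr Pool.Agent.H18.Fat Pool.Agent.H18.Ub Pool.Agent.H18.Nef

variable {n : ℕ}

/-- Cremona transformations preserve the self-intersection. -/
theorem sq_crm {d s : ℕ} {m : Fin n → ℕ} {a b c : Fin n} (hab : a ≠ b) (hac : a ≠ c)
    (hbc : b ≠ c) (hμ : m a + m b + m c + s = 2 * d)
    (hma : m b + m c ≤ d) (hmb : m a + m c ≤ d) (hmc : m a + m b ≤ d) :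
    s ^ 2 + ∑ i, m i ^ 2 = d ^ 2 + ∑ i, crm d m a b c s i ^ 2 := by
  have h2 : ∀ x, (x = a ∨ x = b ∨ x = c) → crm d m a b c s x + d = s + m x := by
    intro x hx
    have : crm d m a b c s x = s + m x - d := if_pos hx
    rw [this]
    rcases hx with rfl | rfl | rfl <;> omega
  rw [sum_three (fun i => m i ^ 2) hab hac hbc,
    sum_three (fun i => crm d m a b c s i ^ 2) hab hac hbc]
  have h3 : ∑ i ∈ univ \ {a, b, c}, crm d m a b c s i ^ 2 = ∑ i ∈ univ \ {a, b, c}, m i ^ 2 :=
    sum_congr rfl fun i hi => by rw [crm_out hi]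
  rw [h3]
  have ha := h2 a (Or.inl rfl)
  have hb := h2 b (Or.inr (Or.inl rfl))
  have hc := h2 c (Or.inr (Or.inr rfl))
  generalize ∑ i ∈ univ \ {a, b, c}, m i ^ 2 = R
  generalize crm d m a b c s a = x at ha ⊢
  generalize crm d m a b c s b = y at hb ⊢
  generalize crm d m a b c s c = z at hc ⊢
  zify at ha hb hc hμ ⊢
  have f1 : (s : ℤ) = 2 * d - m a - m b - m c := by linarith only [hμ]
  have f2 : (x : ℤ) = s + m a - d := by linarith only [ha]
  have f3 : (y : ℤ) = s + m b - d := by linarith only [hb]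
  have f4 : (z : ℤ) = s + m c - d := by linarith only [hc]
  rw [f2, f3, f4, f1]
  ring

/-- One step of the Cremona reduction. -/
theorem cremona_step {d s d' : ℕ} {m m' : Fin n → ℕ} {a b c : Fin n} (hab : a ≠ b) (hac : a ≠ c)
    (hbc : b ≠ c) (hμ : m a + m b + m c + s = 2 * d)
    (hma : m b + m c ≤ d) (hmb : m a + m c ≤ d)
    (h1 : Cremona 2 s (crm d m a b c s) d' m') : Cremona 2 d m d' m' := by
  obtain ⟨J3, e0, e1, e2, hJ3⟩ := emb3 hab hac hbc
  refine Cremona.step J3 (fun l => ?_) ?_ (fun l => ?_) (fun i hi => ?_) h1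
  · have h6 : ∀ x, (x = a ∨ x = b ∨ x = c) → m x ≤ d := by
      rintro x (rfl | rfl | rfl) <;> omega
    apply h6
    by_contra hcon
    exact (hJ3 (J3 l)).2 hcon l rfl
  · rw [Fin.sum_univ_three, e0, e1, e2]
    omega
  · refine if_pos ?_
    by_contra hcon
    exact (hJ3 (J3 l)).2 hcon l rfl
  · exact if_neg ((hJ3 i).1 hi)

/-- Reduction of nef classes to standard form. -/
theorem nef_reduce : ∀ (d : ℕ) (m : Fin n → ℕ), NefC d m →
    ∃ (d' : ℕ) (m' : Fin n → ℕ), Cremona 2 d m d' m' ∧ NefC d' m' ∧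
      (∀ S : Finset (Fin n), S.card ≤ 3 → ∑ i ∈ S, m' i ≤ d') ∧ virt d' m' = virt d m ∧
      d' ^ 2 + ∑ i, m i ^ 2 = d ^ 2 + ∑ i, m' i ^ 2 ∧ d' ≤ d ∧
      ∑ i, m' i + 3 * d = ∑ i, m i + 3 * d' := by
  intro d
  induction d using Nat.strong_induction_on with
  | _ d ih =>
    intro m h
    by_cases hstd : ∀ S : Finset (Fin n), S.card ≤ 3 → ∑ i ∈ S, m i ≤ d
    · exact ⟨d, m, Cremona.refl d m, h, hstd, rfl, rfl, le_rfl, rfl⟩
    · push Not at hstd
      obtain ⟨S, hS3, hlt⟩ := hstd
      have hcard : S.card = 3 := by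
        by_contra hne
        have h012 : S.card = 0 ∨ S.card = 1 ∨ S.card = 2 := by omega
        rcases h012 with h0 | h1 | h2
        · rw [card_eq_zero] at h0
          rw [h0, sum_empty] at hlt
          omega
        · obtain ⟨x, rfl⟩ := card_eq_one.1 h1
          rw [sum_singleton] at hlt
          have := h.one x
          omega
        · obtain ⟨x, y, hxy, rfl⟩ := card_eq_two.1 h2
          rw [sum_pair hxy] at hlt
          have := h.two hxy
          omega
      obtain ⟨a, b, c, hab, hac, hbc, rfl⟩ := card_eq_three.1 hcard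
      have hma := h.two hbc
      have hmb := h.two hac
      have hmc := h.two hab
      have hsum : ∑ i ∈ ({a, b, c} : Finset (Fin n)), m i = m a + m b + m c := by
        rw [sum_insert (by simp [hab, hac]), sum_insert (by simp [hbc]), sum_singleton,
          add_assoc]
      rw [hsum] at hlt
      obtain ⟨s, hs⟩ : ∃ s, s = 2 * d - (m a + m b + m c) := ⟨_, rfl⟩
      have hμ : m a + m b + m c + s = 2 * d := by omega
      obtain ⟨d', m', h1, h2, h3, h4, h5, h6, h7⟩ := ih s (by omega) (crm d m a b c s)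
        (NefC.step h hab hac hbc hμ)
      have hsq := sq_crm hab hac hbc hμ hma hmb hmc
      have hsu := sum_J_crm hab hac hbc hμ hma hmb hmc univ (mem_univ a) (mem_univ b) (mem_univ c)
      exact ⟨d', m', cremona_step hab hac hbc hμ hma hmb h1, h2, h3,
        h4.trans (virt_crm hab hac hbc hμ hma hmb hmc), by omega, by omega, by omega⟩

/-- Non-special classes and Cremona reductions without loss. -/
theorem nonspecial_of_reduce {d d' : ℕ} {m m' : Fin n → ℕ} (h1 : Cremona 2 d m d' m')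
    (h4 : virt d' m' = virt d m)
    (h7 : ForGeneralPoints 2 n fun p => ImposesMaximalConditions 2 d' p m') :
    ForGeneralPoints 2 n fun p => ImposesMaximalConditions 2 d p m := by
  refine (cremona_final (by norm_num) h1 h7).mono fun p hp => ?_
  have h8 := hp.2
  by_contra hcon
  have h9 := (h8.1 hcon).2
  have h10 : virt d' m' = ((d' + 2).choose 2 : ℤ) - ∑ i, ((m' i + 2 - 1).choose 2 : ℤ) := rfl
  have h11 : virt d m = ((d + 2).choose 2 : ℤ) - ∑ i, ((m i + 2 - 1).choose 2 : ℤ) := rfl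
  rw [← h10, ← h11, h4] at h9
  exact lt_irrefl _ h9

end Pool.Agent.H74.SC
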