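import Pool.Agent.H94.LP4.H74.SC.Off

/-!
# Nef classes of large self-intersection
-/

namespace Pool.Agent.H74.SC

open Finset Pool.Agent.H18.Cub Pool.Agent.H18.Pr Pool.Agent.H18.Fat Pool.Agent.H18.Ub Pool.Agent.H18.Nef Pool.Agent.H74.BP

variable {n : ℕ}

/-- Classes of large self-intersection are off the window. -/
theorem off_of_sq {δ η : ℝ} (hδ : 0 < δ) (hδ1 : δ ≤ 1) (hη0 : 0 < η) (hη : η ≤ δ / 16) {M D : ℕ}
    (hM : 2 / δ ≤ M) {n d : ℕ} (m : Fin n → ℕ) (J : Finset (Fin n))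
    (hdD : (D : ℝ) + M + 1 ≤ η * d) (hJ1 : ∀ i ∈ J, η * d ≤ (m i : ℝ))
    (hJ2 : ∀ i, i ∉ J → (m i : ℝ) < η * d) (hsq : ∑ i, (m i : ℝ) ^ 2 ≤ (1 - δ) * d ^ 2) :
    OffS 2 D M d m J := by
  classical
  have hM0 : (0 : ℝ) < M := lt_of_lt_of_le (by positivity) hM
  have hD0 : (0 : ℝ) ≤ D := Nat.cast_nonneg D
  have hd0 : (0 : ℝ) < d := by
    by_contra hcon
    push Not at hcon
    have : η * (d : ℝ) ≤ 0 := mul_nonpos_of_nonneg_of_nonpos hη0.le hcon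
    linarith only [hδ1, hη0, hη, hdD, hM0, this]
  have hsum0 : (0 : ℝ) ≤ ∑ i, (m i : ℝ) ^ 2 := sum_nonneg fun i _ => sq_nonneg _
  intro i hi hMi
  left
  have hs := hJ2 i hi
  have hηd : η * d ≤ d / 16 := by nlinarith only [hδ1, hη]
  have hsD : D + m i ≤ d := by
    have h1 : (D : ℝ) + m i ≤ d := by linarith only [hδ1, hη0, hη, hdD, hM0, hs, hηd]
    exact_mod_cast h1
  refine ⟨hsD, ?_⟩
  have h1 : ∀ l ∈ univ.filter (fun l => l ∈ J ∨ m i ≤ m l),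
      (((m l + 2 - 1).choose 2 : ℕ) : ℝ) ≤ (1 + 1 / M) * (m l : ℝ) ^ 2 / 2 := by
    intro l hl
    have hMl : (M : ℝ) ≤ m l := by
      rcases (mem_filter.1 hl).2 with h | h
      · have := hJ1 l h
        linarith only [hδ1, hη0, hη, hdD, this]
      · exact_mod_cast (hMi.le.trans h)
    have h2 : (((m l + 2 - 1).choose 2 : ℕ) : ℝ) = (m l : ℝ) * (m l + 1) / 2 := by
      have h3 := choose_two_cast (m l)
      have h4 : (2 * ((m l + 1).choose 2 : ℕ) : ℝ) = (m l : ℝ) * (m l + 1) := by exact_mod_cast h3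
      have h5 : m l + 2 - 1 = m l + 1 := by omega
      rw [h5]
      linarith only [h4]
    rw [h2]
    have h3 : (m l : ℝ) ≤ 1 / M * (m l : ℝ) ^ 2 := by
      rw [div_mul_eq_mul_div, one_mul, le_div_iff₀ hM0, sq]
      exact mul_le_mul_of_nonneg_left hMl (Nat.cast_nonneg _)
    nlinarith only [h3]
  have h2 : ((∑ l ∈ univ.filter (fun l => l ∈ J ∨ m i ≤ m l), (m l + 2 - 1).choose 2 : ℕ) : ℝ) ≤
      (1 + 1 / M) * (∑ l, (m l : ℝ) ^ 2) / 2 := by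
    push_cast
    refine (sum_le_sum h1).trans ?_
    rw [← sum_div, ← mul_sum]
    have h3 : ∑ l ∈ univ.filter (fun l => l ∈ J ∨ m i ≤ m l), (m l : ℝ) ^ 2 ≤
        ∑ l, (m l : ℝ) ^ 2 := sum_le_sum_of_subset_of_nonneg (filter_subset _ _)
          fun _ _ _ => sq_nonneg _
    have h4 : (0 : ℝ) ≤ 1 + 1 / M := by positivity
    have := mul_le_mul_of_nonneg_left h3 h4
    linarith only [this]
  have h3 : (((d - D - m i + 2).choose 2 : ℕ) : ℝ) =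
      ((d : ℝ) - D - m i + 1) * ((d : ℝ) - D - m i + 2) / 2 := by
    have h4 := choose_two_cast (d - D - m i + 1)
    have h5 : (2 * ((d - D - m i + 1 + 1).choose 2 : ℕ) : ℝ) =
        ((d - D - m i + 1 : ℕ) : ℝ) * (((d - D - m i + 1 : ℕ) : ℝ) + 1) := by exact_mod_cast h4
    have h6 : ((d - D - m i : ℕ) : ℝ) = (d : ℝ) - D - m i := by
      rw [Nat.cast_sub (by omega), Nat.cast_sub (by omega)]
    push_cast at h5
    rw [h6] at h5
    linarith only [h5]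
  have h4 : (1 - 2 * η) * (d : ℝ) ≤ (d : ℝ) - D - m i := by nlinarith only [hδ1, hη0, hη, hdD, hM0, hs]
  have h5 : (0 : ℝ) ≤ (1 - 2 * η) * d := by
    have : (0 : ℝ) ≤ 1 - 2 * η := by linarith only [hδ1, hη0, hη]
    positivity
  have h6 : ((1 - 2 * η) * (d : ℝ)) ^ 2 ≤ ((d : ℝ) - D - m i) ^ 2 := pow_le_pow_left₀ h5 h4 2
  have h7 : (1 - δ / 2) * (d : ℝ) ^ 2 ≤ ((1 - 2 * η) * (d : ℝ)) ^ 2 := by
    rw [mul_pow]
    refine mul_le_mul_of_nonneg_right ?_ (sq_nonneg _)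
    nlinarith only [hη0, hη]
  have h8 : (1 + 1 / M) * (∑ l, (m l : ℝ) ^ 2) ≤ (1 - δ / 2) * (d : ℝ) ^ 2 := by
    have h9 : 1 / (M : ℝ) ≤ δ / 2 := by
      rw [div_le_iff₀ hM0]
      rw [div_le_iff₀ hδ] at hM
      linarith only [hM]
    have h10 : ∑ l, (m l : ℝ) ^ 2 ≤ (d : ℝ) ^ 2 := by
      refine hsq.trans ?_
      have : (1 - δ) ≤ (1 : ℝ) := by linarith only [hη0, hη]
      nlinarith only [hδ, sq_nonneg (d : ℝ)]
    have h11 : 1 / (M : ℝ) * ∑ l, (m l : ℝ) ^ 2 ≤ δ / 2 * (d : ℝ) ^ 2 :=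
      mul_le_mul h9 h10 hsum0 (by linarith only [hη0, hη])
    nlinarith only [hsq, h11]
  have h9 : ((∑ l ∈ univ.filter (fun l => l ∈ J ∨ m i ≤ m l), (m l + 2 - 1).choose 2 : ℕ) : ℝ) ≤
      (((d - D - m i + 2).choose 2 : ℕ) : ℝ) := by
    rw [h3]
    refine h2.trans ?_
    nlinarith only [hδ1, hη0, hη, hdD, hM0, hs, hηd, h6, h7, h8]
  exact_mod_cast h9

end Pool.Agent.H74.SC
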