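import Pool.Agent.H94.LP4.H74.CT.Lp
import Pool.Agent.H94.LP4.H74.SC.Off
import Pool.Agent.H94.LP4.M63

/-!
# The plane: at most eight arbitrary multiplicities
-/

namespace Pool.Agent.H74.SC

open Finset Pool.Agent.H18.Cub Pool.Agent.H18.Pr Pool.Agent.H18.Fat Pool.Agent.H18.Ub Pool.Agent.H18.Nef Pool.Agent.H74.BP

/-- The plane: at most eight arbitrary multiplicities. -/
theorem plane_TS : ∃ K E : ℕ, ∀ M : ℕ, 1 ≤ M → ∀ (k d : ℕ) (m : Fin k → ℕ)
    (J : Finset (Fin k)), J.card ≤ 8 →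
    (∀ S : Finset (Fin k), S.card ≤ 3 → ∑ i ∈ S, m i ≤ d) → K * M ^ E ≤ d →
    OffS 2 (K * M ^ E) M d m J →
    ForGeneralPoints 2 k fun p => ImposesMaximalConditions 2 d p m := by
  classical
  obtain ⟨K₁, hK₁⟩ := exact_eight
  obtain ⟨K₂, E₂, hplane⟩ := Pool.Agent.H18.Ta.plane
  obtain ⟨A, E₀, hthr⟩ := thresholds K₁ 8
  refine ⟨(1 + K₂) * (2048000000 * A ^ 14) ^ (E₂ + 1), 14 * E₀ * (E₂ + 1),
    fun M hM k d m J hJ8 hstd hd hoff => ?_⟩
  obtain ⟨M', J', hJ'J, hMM', hM'A, hY, hout⟩ := hthr M hM k m J hJ8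
  have hM' : 1 ≤ M' := hM.trans hMM'
  set R := (1 + K₂) * (2048000000 * A ^ 14) ^ (E₂ + 1) * M ^ (14 * E₀ * (E₂ + 1)) with hR
  set Q := 2048000000 * M' ^ 14 with hQ
  have hQ1 : 1 ≤ Q := by
    have : 1 ≤ M' ^ 14 := Nat.one_le_pow _ _ hM'
    omega
  have hQ0 : Q ≤ 2048000000 * A ^ 14 * M ^ (14 * E₀) := by
    have h1 : M' ^ 14 ≤ (A * M ^ E₀) ^ 14 := Nat.pow_le_pow_left hM'A 14
    have h2 : (A * M ^ E₀) ^ 14 = A ^ 14 * M ^ (14 * E₀) := by
      rw [mul_pow, ← pow_mul, Nat.mul_comm E₀ 14]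
    rw [h2] at h1
    calc Q ≤ 2048000000 * (A ^ 14 * M ^ (14 * E₀)) := Nat.mul_le_mul_left _ h1
      _ = _ := by ring
  have hbig : (1 + K₂) * Q ^ (E₂ + 1) ≤ R := by
    calc (1 + K₂) * Q ^ (E₂ + 1) ≤
        (1 + K₂) * (2048000000 * A ^ 14 * M ^ (14 * E₀)) ^ (E₂ + 1) :=
          Nat.mul_le_mul_left _ (Nat.pow_le_pow_left hQ0 _)
      _ = R := by
          rw [hR, mul_pow (2048000000 * A ^ 14), ← pow_mul]
          ring
  have hQR : Q ≤ R := by
    have h1 : Q ^ 1 ≤ Q ^ (E₂ + 1) := Nat.pow_le_pow_right hQ1 (by omega)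
    rw [pow_one] at h1
    nlinarith only [hbig, h1, Nat.zero_le (K₂ * Q ^ (E₂ + 1))]
  have hB := Pool.Agent.H74.CT.choose_le_pow M' hM' 2
  have hDL : Pool.Agent.H74.CT.DL (0 + 2) M' ≤ Q := by
    unfold Pool.Agent.H74.CT.DL
    have h1 : (M' + 2 - 1).choose 2 ^ 3 ≤ (M' ^ 2) ^ 3 := Nat.pow_le_pow_left hB 3
    calc 10 ^ 6 * (0 + 2) ^ 5 * 8 ^ (0 + 2) * M' ^ 8 * (M' + (0 + 2) - 1).choose (0 + 2) ^ 3 ≤
        10 ^ 6 * (0 + 2) ^ 5 * 8 ^ (0 + 2) * M' ^ 8 * (M' ^ 2) ^ 3 := Nat.mul_le_mul_left _ h1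
      _ = Q := by
        rw [hQ]
        ring
  have hM'14 : ∀ a ≤ 14, M' ^ a ≤ M' ^ 14 := fun a ha => Nat.pow_le_pow_right hM' ha
  have hF : M' + 300 * 2 * M' ^ (2 + 4) ≤ Q := by
    have h1 := hM'14 1 (by norm_num)
    have h2 := hM'14 6 (by norm_num)
    rw [pow_one] at h1
    have h3 : M' ^ (2 + 4) = M' ^ 6 := rfl
    rw [h3, hQ]
    omega
  have hEC : 16 * M' ^ 2 * (M' + 2 - 1).choose 2 * (66 * M' ^ 3 * (M' + 2 - 1).choose 2) ≤ Q := by
    have h1 : (M' + 2 - 1).choose 2 * (M' + 2 - 1).choose 2 ≤ M' ^ 2 * M' ^ 2 :=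
      Nat.mul_le_mul hB hB
    have h2 := hM'14 9 (by norm_num)
    calc 16 * M' ^ 2 * (M' + 2 - 1).choose 2 * (66 * M' ^ 3 * (M' + 2 - 1).choose 2) =
        1056 * M' ^ 5 * ((M' + 2 - 1).choose 2 * (M' + 2 - 1).choose 2) := by ring
      _ ≤ 1056 * M' ^ 5 * (M' ^ 2 * M' ^ 2) := Nat.mul_le_mul_left _ h1
      _ = 1056 * M' ^ 9 := by ring
      _ ≤ Q := by
        rw [hQ]
        omega
  have hpair : ∀ i j, i ≠ j → m i + m j ≤ d := by
    intro i j hij
    have h1 := hstd {i, j} (card_le_two.trans (by norm_num))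
    rw [sum_pair hij] at h1
    exact h1
  have hone : ∀ i, m i ≤ d := by
    intro i
    have h1 := hstd {i} (by rw [card_singleton]; norm_num)
    rw [sum_singleton] at h1
    exact h1
  -- the points off `J'`
  set h : ℕ → ℕ := fun j => generalDim 2 j fun i => if i ∈ J' then m i else 0 with hh
  have hoff' : OffS 2 (300 * 2 * M' ^ (2 + 4)) M' d m J' := by
    have h1 : OffS 2 R M' d m J' := by
      intro i hi hMi
      have hiJ : i ∉ J := by
        intro hiJ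
        have := hout i hiJ hi
        omega
      rcases hoff i hiJ (by omega) with ⟨h1, h2⟩ | h1
      · refine Or.inl ⟨h1, le_trans (sum_le_sum_of_subset fun l hl => ?_) h2⟩
        rw [mem_filter] at hl ⊢
        exact ⟨hl.1, hl.2.imp (fun h => hJ'J h) id⟩
      · exact Or.inr h1
    exact h1.mono (by omega) le_rfl
  have hJ'8 : J'.card ≤ 8 := (card_le_card hJ'J).trans hJ8
  have hup : ∀ j, d ≤ j → h j ≤ (j + 2).choose 2 - ∑ i ∈ J', (m i + 2 - 1).choose 2 := by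
    intro j hj
    have h3 := hplane 1 le_rfl k j (fun i => if i ∈ J' then m i else 0) J'
      (hJ'8.trans (by norm_num)) (fun i hi => by rw [if_neg hi]; exact Nat.zero_le _)
      (fun S hS => by
        refine le_trans (sum_le_sum fun i _ => ?_) ((hstd S hS).trans hj)
        split_ifs
        · exact le_rfl
        · exact Nat.zero_le _) (by
        have h5 : K₂ * 1 ≤ (1 + K₂) * Q ^ (E₂ + 1) :=
          Nat.mul_le_mul (by omega) (Nat.one_le_pow _ _ hQ1)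
        rw [one_pow]
        omega) (fun h => by omega)
    obtain ⟨p, hp1, hp2⟩ := Pool.Agent.H18.Cub.exists_of_general
      (h3.and (generalDim_spec 2 j fun i => if i ∈ J' then m i else 0))
    unfold ImposesMaximalConditions at hp1
    have h2 : ∑ i, (((if i ∈ J' then m i else 0) + 2 - 1).choose 2 : ℤ) =
        ((∑ i ∈ J', (m i + 2 - 1).choose 2 : ℕ) : ℤ) := by
      push_cast
      rw [← sum_subset (subset_univ J')]
      · exact sum_congr rfl fun i hi => by rw [if_pos hi]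
      · intro i _ hi
        rw [if_neg hi]
        rfl
    rw [hp2, h2] at hp1
    show generalDim 2 j (fun i => if i ∈ J' then m i else 0) ≤ _
    omega
  have hfin : 16 * M' ^ 2 * (M' + 2 - 1).choose 2 * ((h d - h (d - 1)) -
      (h (d - 66 * M' ^ 3 * (M' + 2 - 1).choose 2) -
        h (d - 66 * M' ^ 3 * (M' + 2 - 1).choose 2 - 1))) ≤ h d - h (d - 1) →
      ForGeneralPoints 2 k fun p => ImposesMaximalConditions 2 d p m := fun hslow =>
    of_scale 2 M' le_rfl hM' k d m J' h (fun _ => rfl) hup (Or.inl hslow) hoff'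
  by_cases hJ3 : 3 ≤ J'.card
  · -- three to eight points
    have hstd' : ∀ S ⊆ J', S.card = 3 → ∑ i ∈ S, m i ≤ d := fun S _ hS => hstd S hS.le
    have hy : 6 * (66 * M' ^ 3 * (M' + 2 - 1).choose 2 + 1 + K₁) + 8 ≤ YY K₁ M' := le_rfl
    have hslow := slow_eight hK₁ k d (YY K₁ M') (66 * M' ^ 3 * (M' + 2 - 1).choose 2)
      (16 * M' ^ 2 * (M' + 2 - 1).choose 2) m J' hJ3 hJ'8 hY hstd' hy (by omega) h (fun _ => rfl)
    exact hfin hslow
  · push Not at hJ3
    by_cases hD : ∀ i ∈ J', m i + Pool.Agent.H74.CT.DL (0 + 2) M' ≤ d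
    · have hslow := Pool.Agent.H74.CT.growth_few 0 M' k d hM' m J' (by omega) hD (by
        norm_num
        omega) (fun a _ b _ hab => (hpair a b hab).trans (Nat.le_succ _)) h (fun _ => rfl)
      exact hfin hslow
    · -- one multiplicity close to `d`
      push Not at hD
      obtain ⟨i₀, hi₀, hlt⟩ := hD
      have hDL1 : 1 ≤ Pool.Agent.H74.CT.DL (0 + 2) M' := by
        have := hone i₀
        omega
      refine hplane (Pool.Agent.H74.CT.DL (0 + 2) M') hDL1 k d m {i₀}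
        (by rw [card_singleton]; norm_num) (fun i hi => ?_) hstd ?_
        (fun hc => by
          rw [card_singleton] at hc
          omega)
      · have h1 := hpair i i₀ fun h => hi (mem_singleton.2 h)
        omega
      · have h1 : Pool.Agent.H74.CT.DL (0 + 2) M' ^ E₂ ≤ Q ^ E₂ := Nat.pow_le_pow_left hDL _
        have h2 : Q ^ E₂ ≤ Q ^ (E₂ + 1) := Nat.pow_le_pow_right hQ1 (Nat.le_succ _)
        have h3 : K₂ * Pool.Agent.H74.CT.DL (0 + 2) M' ^ E₂ ≤ K₂ * Q ^ (E₂ + 1) :=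
          Nat.mul_le_mul_left _ (h1.trans h2)
        nlinarith only [hd, hbig, h3, Nat.zero_le (Q ^ (E₂ + 1))]

end Pool.Agent.H74.SC
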