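import Pool.Agent.H94.LP4.H74.SC.NefS
import Pool.Agent.H94.LP4.H74.SC.NefS_2
import Pool.Agent.H94.LP4.H74.SC.PlaneS
import Pool.Agent.H94.LP4.M72

/-!
# Nef classes of large self-intersection
-/

namespace Pool.Agent.H74.SC

open Finset Pool.Agent.H18.Cub Pool.Agent.H18.Pr Pool.Agent.H18.Fat Pool.Agent.H18.Ub Pool.Agent.H18.Nef Pool.Agent.H74.BP

variable {n : ℕ}

open scoped Classical in
/-- Classes in standard form of large self-intersection: the points with large multiplicities fill at most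
`36 / 37` of the plane, or are positive on the anticanonical class. -/
theorem std_bigJ (ε : ℝ) (hε : 0 < ε) : ∃ (η : ℝ) (d₀ : ℕ), 0 < η ∧ ∀ (n d : ℕ) (m : Fin n → ℕ),
    d₀ ≤ d → (∀ S : Finset (Fin n), S.card ≤ 3 → ∑ i ∈ S, m i ≤ d) →
    ∑ i, (m i : ℝ) ^ 2 ≤ (1 - ε) * d ^ 2 →
    (∑ i ∈ univ.filter (fun i : Fin n => η * d ≤ (m i : ℝ)), (m i : ℝ) ^ 2 ≤
        (36 / 37 - ε) * d ^ 2 ∨
      ∑ i ∈ univ.filter (fun i : Fin n => η * d ≤ (m i : ℝ)), (m i : ℝ) ≤ (3 - ε) * d) →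
    ForGeneralPoints 2 n fun p => ImposesMaximalConditions 2 d p m := by
  classical
  obtain ⟨K₁, E₁, h₁⟩ := plane_TS
  obtain ⟨δ, hδ⟩ : ∃ δ : ℝ, δ = min ε 1 := ⟨_, rfl⟩
  have hδ0 : 0 < δ := by
    rw [hδ]
    exact lt_min hε one_pos
  have hδε : δ ≤ ε := by
    rw [hδ]
    exact min_le_left _ _
  have hδ1 : δ ≤ 1 := by
    rw [hδ]
    exact min_le_right _ _
  obtain ⟨M, hM⟩ := exists_nat_ge (2 / δ)
  have hM0 : (0 : ℝ) < M := lt_of_lt_of_le (by positivity) hM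
  have hM1 : 1 ≤ M := by exact_mod_cast hM0
  obtain ⟨η, hη⟩ : ∃ η : ℝ, η = δ / 16 := ⟨_, rfl⟩
  have hη0 : 0 < η := by
    rw [hη]
    positivity
  set F := 300 * 2 * M ^ (2 + 4) with hF
  set D := K₁ * M ^ E₁ + F with hD
  obtain ⟨d₂, hd₂⟩ := exact36 F η hη0
  obtain ⟨d₃, hd₃⟩ := exact_anti F η hη0
  obtain ⟨d₁, hd₁⟩ := exists_nat_ge ((D + M + 1) / η)
  refine ⟨η, d₁ + d₂ + d₃ + D, hη0, fun n d m hd hstd hall hor => ?_⟩
  have hdD : (D : ℝ) + M + 1 ≤ η * d := by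
    have h1 : (((D : ℝ) + M + 1) / η) ≤ d := hd₁.trans (by exact_mod_cast (by omega : d₁ ≤ d))
    rw [div_le_iff₀ hη0] at h1
    linarith only [h1]
  have hd0 : (0 : ℝ) ≤ d := Nat.cast_nonneg d
  set J := univ.filter fun i : Fin n => η * d ≤ (m i : ℝ) with hJ
  have hJ1 : ∀ i ∈ J, η * d ≤ (m i : ℝ) := fun i hi => (mem_filter.1 hi).2
  have hJ2 : ∀ i, i ∉ J → (m i : ℝ) < η * d := by
    intro i hi
    by_contra hcon
    push Not at hcon
    exact hi (mem_filter.2 ⟨mem_univ i, hcon⟩)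
  have hsq : ∑ i, (m i : ℝ) ^ 2 ≤ (1 - δ) * d ^ 2 :=
    hall.trans (mul_le_mul_of_nonneg_right (by linarith only [hδε]) (sq_nonneg _))
  have hoff := off_of_sq hδ0 hδ1 hη0 hη.le hM m J hdD hJ1 hJ2 hsq
  have hoffF : OffS 2 F M d m J := hoff.mono (by omega) le_rfl
  have hoffK : OffS 2 (K₁ * M ^ E₁) M d m J := hoff.mono (by omega) le_rfl
  rcases Nat.lt_or_ge J.card 9 with h9 | h9
  · exact h₁ M hM1 n d m J (by omega) hstd (by omega) hoffK
  · rcases hor with hsq | hsum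
    · have hsqJ : ∑ i ∈ J, (m i : ℝ) ^ 2 ≤ (36 / 37 - η) * d ^ 2 :=
        hsq.trans (mul_le_mul_of_nonneg_right (by linarith only [hε, hδε, hη]) (sq_nonneg _))
      obtain ⟨h2, h3⟩ := hd₂ n d m J (by omega) hJ1 h9 hstd hsqJ
      exact of_exactS 2 M le_rfl hM1 n d m J h2 h3 hoffF
    · have hsumJ : ∑ i ∈ J, (m i : ℝ) ≤ (3 - η) * d :=
        hsum.trans (mul_le_mul_of_nonneg_right (by linarith only [hε, hδε, hη]) hd0)
      obtain ⟨h2, h3⟩ := hd₃ n d m J (by omega) hJ1 h9 hstd hsumJ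
      exact of_exactS 2 M le_rfl hM1 n d m J h2 h3 hoffF

/-- Classes in standard form of large self-intersection: at most `36 / 37` of the plane is filled, or the
class is positive on the anticanonical class. -/
theorem std_big (ε : ℝ) (hε : 0 < ε) : ∃ d₀ : ℕ, ∀ (n d : ℕ) (m : Fin n → ℕ), d₀ ≤ d →
    (∀ S : Finset (Fin n), S.card ≤ 3 → ∑ i ∈ S, m i ≤ d) →
    (∑ i, (m i : ℝ) ^ 2 ≤ (36 / 37 - ε) * d ^ 2 ∨
      ∑ i, (m i : ℝ) ^ 2 ≤ (1 - ε) * d ^ 2 ∧ ∑ i, (m i : ℝ) ≤ (3 - ε) * d) →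
    ForGeneralPoints 2 n fun p => ImposesMaximalConditions 2 d p m := by
  classical
  obtain ⟨η, d₀, hη, hd₀⟩ := std_bigJ ε hε
  refine ⟨d₀, fun n d m hd hstd hor => ?_⟩
  rcases hor with h | ⟨h, hs⟩
  · refine hd₀ n d m hd hstd (h.trans (mul_le_mul_of_nonneg_right (by linarith only) (sq_nonneg _)))
      (Or.inl (le_trans ?_ h))
    exact sum_le_sum_of_subset_of_nonneg (subset_univ _) fun _ _ _ => sq_nonneg _
  · refine hd₀ n d m hd hstd h (Or.inr (le_trans ?_ hs))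
    exact sum_le_sum_of_subset_of_nonneg (subset_univ _) fun _ _ _ => Nat.cast_nonneg _

/-- Nef classes of large self-intersection are non-special. -/
theorem nef_big (ε : ℝ) (hε : 0 < ε) : ∃ d₀ : ℕ, ∀ (n d : ℕ) (m : Fin n → ℕ), d₀ ≤ d →
    NefC d m → (∑ i, (m i : ℝ) ^ 2 ≤ (36 / 37 - ε) * d ^ 2 ∨
      ∑ i, (m i : ℝ) ^ 2 ≤ (1 - ε) * d ^ 2 ∧ ∑ i, (m i : ℝ) ≤ (3 - ε) * d) →
    ForGeneralPoints 2 n fun p => ImposesMaximalConditions 2 d p m := by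
  obtain ⟨d₀, hd₀⟩ := std_big ε hε
  obtain ⟨δ, hδ⟩ : ∃ δ : ℝ, δ = min ε (1 / 37) := ⟨_, rfl⟩
  have hδ0 : 0 < δ := by
    rw [hδ]
    exact lt_min hε (by norm_num)
  have hδε : δ ≤ ε := by
    rw [hδ]
    exact min_le_left _ _
  have hδ1 : δ ≤ 1 / 37 := by
    rw [hδ]
    exact min_le_right _ _
  obtain ⟨d₁, hd₁⟩ := exists_nat_ge (d₀ / δ)
  refine ⟨d₁, fun n d m hd hnef hor => ?_⟩
  have hdd : (d₀ : ℝ) ≤ δ * d := by
    have h1 : ((d₀ : ℝ) / δ) ≤ d := hd₁.trans (by exact_mod_cast hd)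
    rw [div_le_iff₀ hδ0] at h1
    linarith only [h1]
  obtain ⟨d', m', h1, h2, h3, h4, h5, h6, h7⟩ := nef_reduce d m hnef
  have h5' : (d' : ℝ) ^ 2 + ∑ i, (m i : ℝ) ^ 2 = (d : ℝ) ^ 2 + ∑ i, (m' i : ℝ) ^ 2 := by
    exact_mod_cast h5
  have h7' : (∑ i, (m' i : ℝ)) + 3 * d = (∑ i, (m i : ℝ)) + 3 * d' := by exact_mod_cast h7
  have h0 : (0 : ℝ) ≤ ∑ i, (m' i : ℝ) ^ 2 := sum_nonneg fun i _ => sq_nonneg _
  have h6' : (d' : ℝ) ≤ d := by exact_mod_cast h6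
  have hdd' : (d' : ℝ) ^ 2 ≤ (d : ℝ) ^ 2 := pow_le_pow_left₀ (Nat.cast_nonneg _) h6' 2
  have hd'0 : (0 : ℝ) ≤ d' := Nat.cast_nonneg _
  have hd0 : (0 : ℝ) ≤ d := Nat.cast_nonneg _
  have hδd : (0 : ℝ) ≤ δ * (d : ℝ) ^ 2 := by positivity
  have hbig : δ * (d : ℝ) ^ 2 ≤ (d' : ℝ) ^ 2 := by
    rcases hor with h | ⟨h, -⟩
    · have : ∑ i, (m i : ℝ) ^ 2 ≤ (1 - δ) * d ^ 2 :=
        h.trans (mul_le_mul_of_nonneg_right (by linarith only [hε, hδ1]) (sq_nonneg _))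
      linarith only [h5', h0, this]
    · have : ∑ i, (m i : ℝ) ^ 2 ≤ (1 - δ) * d ^ 2 :=
        h.trans (mul_le_mul_of_nonneg_right (by linarith only [hδε]) (sq_nonneg _))
      linarith only [h5', h0, this]
  have hge : δ * (d : ℝ) ≤ d' := by
    have h8 : (δ * (d : ℝ)) ^ 2 ≤ (d' : ℝ) ^ 2 := by
      rw [mul_pow]
      have : δ ^ 2 * (d : ℝ) ^ 2 ≤ δ * (d : ℝ) ^ 2 :=
        mul_le_mul_of_nonneg_right (by nlinarith only [hδ0, hδ1]) (sq_nonneg _)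
      linarith only [hbig, this]
    exact (pow_le_pow_iff_left₀ (by positivity) hd'0 two_ne_zero).1 h8
  refine nonspecial_of_reduce h1 h4 (hd₀ n d' m' ?_ h3 ?_)
  · have : (d₀ : ℝ) ≤ d' := hdd.trans hge
    exact_mod_cast this
  · rcases hor with h | ⟨h, hs⟩
    · left
      have : (0 : ℝ) ≤ (1 / 37 + ε) * ((d : ℝ) ^ 2 - d' ^ 2) :=
        mul_nonneg (by positivity) (by linarith only [hdd'])
      nlinarith only [h5', h, this]
    · right
      have h8 : (0 : ℝ) ≤ ε * ((d : ℝ) ^ 2 - d' ^ 2) := mul_nonneg hε.le (by linarith only [hdd'])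
      have h9 : (0 : ℝ) ≤ ε * ((d : ℝ) - d') := mul_nonneg hε.le (by linarith only [h6'])
      exact ⟨by nlinarith only [h5', h, h8], by nlinarith only [h7', hs, h9]⟩

/-- The same with the degree with respect to a Cremona image of the class of a line. -/
theorem nef_big_image (ε : ℝ) (hε : 0 < ε) : ∃ d₀ : ℕ, ∀ (n e : ℕ) (k : Fin n → ℕ),
    LineImage e k → ∀ (d x : ℕ) (m : Fin n → ℕ), NefC d m → d₀ ≤ x →
    ∑ i, m i * k i + x = d * e →
    ∑ i, (m i : ℝ) ^ 2 + (1 / 37 + ε) * x ^ 2 ≤ d ^ 2 →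
    ForGeneralPoints 2 n fun p => ImposesMaximalConditions 2 d p m := by
  obtain ⟨d₀, hd₀⟩ := nef_big ε hε
  refine ⟨d₀, fun n e k hF => ?_⟩
  induction hF with
  | line =>
    intro d x m hnef hx hxd hsq
    have h1 : x = d := by
      simp only [mul_zero, sum_const_zero, zero_add, mul_one] at hxd
      exact hxd
    subst h1
    exact hd₀ n x m hx hnef (Or.inl (by linarith only [hsq]))
  | @step e s k a b c _ hab hac hbc hka hkb hkc hs ih =>
    intro d x m hnef hx hxd hsq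
    have hma := hnef.two hbc
    have hmb := hnef.two hac
    have hmc := hnef.two hab
    obtain ⟨t, ht⟩ : ∃ t, t = 2 * d - (m a + m b + m c) := ⟨_, rfl⟩
    have hμ : m a + m b + m c + t = 2 * d := by omega
    have hp1 := pairing hab hac hbc hμ hs hma hmb hmc
    have hp2 := pairing hab hac hbc hs hμ hka hkb hkc
    have hsq1 := sq_crm hab hac hbc hμ hma hmb hmc
    have hsq1' : (t : ℝ) ^ 2 + ∑ i, (m i : ℝ) ^ 2 =
        (d : ℝ) ^ 2 + ∑ i, (crm d m a b c t i : ℝ) ^ 2 := by exact_mod_cast hsq1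
    have hxd' : (∑ i, (m i : ℤ) * (crm e k a b c s i : ℤ)) + x = d * s := by
      have : (∑ i, m i * crm e k a b c s i) + x = d * s := hxd
      exact_mod_cast this
    have hcomm1 : ∑ i, (crm d m a b c t i : ℤ) * (k i : ℤ) = ∑ i, (k i : ℤ) * (crm d m a b c t i : ℤ) :=
      sum_congr rfl fun i _ => mul_comm _ _
    have hcomm2 : ∑ i, (crm e k a b c s i : ℤ) * (m i : ℤ) = ∑ i, (m i : ℤ) * (crm e k a b c s i : ℤ) :=
      sum_congr rfl fun i _ => mul_comm _ _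
    have hx1 : (∑ i, crm d m a b c t i * k i) + x = t * e := by
      have : (∑ i, (crm d m a b c t i : ℤ) * (k i : ℤ)) + x = t * e := by
        rw [hcomm1] at hp1 ⊢
        rw [hcomm2] at hp2
        linarith only [hp2, hxd', hp1]
      exact_mod_cast this
    refine nonspecial_of_reduce (cremona_step hab hac hbc hμ hma hmb (Cremona.refl _ _))
      (virt_crm hab hac hbc hμ hma hmb hmc) ?_
    exact ih t x (crm d m a b c t) (NefC.step hnef hab hac hbc hμ) hx hx1 (by linarith only [hsq, hsq1'])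

end Pool.Agent.H74.SC
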